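import Pool.Agent.N410.HY.Main

/-!
# The Havet–Yu conjecture for graphs of degeneracy at most `Δ / 21`
-/

set_option autoImplicit false

namespace Pool.Agent.Results.MP_b8729f_co.DegenerateLinear

open Finset Pool.Agent.N410.HY

/-- `TotalLabeling G p l`: the graph `G` has a `(p,1)`-total labeling of span `l`, that is, labels
`0, …, l` for the vertices (`fV`) and the edges (`fE`) such that adjacent vertices get different
labels, edges sharing an endpoint get different labels, and the labels of a vertex and of an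
incident edge differ by at least `p`. -/
def TotalLabeling {V : Type} (G : SimpleGraph V) (p l : ℕ) : Prop :=
  ∃ (fV : V → ℕ) (fE : Sym2 V → ℕ),
    (∀ v, fV v ≤ l) ∧ (∀ e ∈ G.edgeSet, fE e ≤ l) ∧
    (∀ u v, G.Adj u v → fV u ≠ fV v) ∧
    (∀ u v w, G.Adj u v → G.Adj u w → v ≠ w → fE s(u, v) ≠ fE s(u, w)) ∧
    (∀ u v, G.Adj u v → (p : ℤ) ≤ |(fV u : ℤ) - (fE s(u, v) : ℤ)|)

/-- the degree of `v` -/
noncomputable def deg {V : Type} (G : SimpleGraph V) (v : V) : ℕ := (G.neighborSet v).ncard

/-- `Degenerate G s`: the graph `G` is `s`-degenerate, that is, every nonempty set `X` of vertices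
contains a vertex with at most `s` neighbours in `X`. -/
def Degenerate {V : Type} (G : SimpleGraph V) (s : ℕ) : Prop :=
  ∀ X : Set V, X.Nonempty → ∃ v ∈ X, {u : V | u ∈ X ∧ G.Adj v u}.ncard ≤ s

/-- `v` has degree at least `D / (2 p) + 1`. -/
def Large {V : Type} (G : SimpleGraph V) (D p : ℕ) (v : V) : Prop := D + 2 * p ≤ 2 * p * deg G v

/-- The edges which meet a vertex of degree at least `D / (2 p) + 1` form an `s`-degenerate
graph. -/
def DegenerateAtLarge {V : Type} (G : SimpleGraph V) (D p s : ℕ) : Prop :=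
  ∀ X : Set V, X.Nonempty → ∃ v ∈ X,
    {u : V | u ∈ X ∧ G.Adj v u ∧ (Large G D p v ∨ Large G D p u)}.ncard ≤ s

/-- Let `G` be a finite graph with all degrees at most `D`.

(1) Let `p ≥ 1` and let the edges which meet a vertex of degree at least `D / (2 p) + 1` form an
`s`-degenerate graph. If `p > s`, or if `D ≥ 15 s + 6 - 2 p` and `D ≥ 14 p + 7 s - 10`, then `G` has
a `(p,1)`-total labeling of span `D + 2 p - 1`.

(2) If `G` is `s`-degenerate and `D ≥ 21 s`, then this holds for all `p ≥ 1`.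

(3) If `p ≥ 1`, `G` has at most `s` vertices of degree at least `D / (2 p) + 1` and `D ≥ 21 s`, then
`G` has a `(p,1)`-total labeling of span `D + 2 p - 1`. -/
theorem result {V : Type} [Finite V] (G : SimpleGraph V) (D : ℕ) (hD : ∀ v, deg G v ≤ D) :
    (∀ p s : ℕ, 1 ≤ p → DegenerateAtLarge G D p s →
      (s < p ∨ (15 * s + 6 ≤ D + 2 * p ∧ 14 * p + 7 * s ≤ D + 10)) →
      TotalLabeling G p (D + 2 * p - 1)) ∧
    (∀ s : ℕ, Degenerate G s → 21 * s ≤ D → ∀ p : ℕ, 1 ≤ p → TotalLabeling G p (D + 2 * p - 1)) ∧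
    (∀ p s : ℕ, 1 ≤ p → {v : V | Large G D p v}.ncard ≤ s → 21 * s ≤ D →
      TotalLabeling G p (D + 2 * p - 1)) := by
  classical
  have := Fintype.ofFinite V
  have hdeg : ∀ v, G.degree v = deg G v := by
    intro v
    unfold deg
    rw [Set.ncard_eq_toFinset_card', ← SimpleGraph.neighborFinset_def,
      SimpleGraph.card_neighborFinset_eq_degree]
  have h1 : ∀ p s : ℕ, 1 ≤ p → DegenerateAtLarge G D p s →
      (s < p ∨ (15 * s + 6 ≤ D + 2 * p ∧ 14 * p + 7 * s ≤ D + 10)) →
      TotalLabeling G p (D + 2 * p - 1) := by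
    intro p s hp hs hcase
    set T : Finset V := univ.filter (fun v => Large G D p v) with hT
    have hTm : ∀ v, v ∈ T ↔ Large G D p v := by simp [hT]
    have hDeg : Deg G T s := by
      intro X hX
      obtain ⟨v, hv, hc⟩ := hs (X : Set V) (by exact_mod_cast hX)
      refine ⟨v, by exact_mod_cast hv, le_trans (le_of_eq ?_) hc⟩
      rw [← Set.ncard_coe_finset]
      congr 1
      ext u
      simp [hTm]
    have hD' : ∀ v, G.degree v ≤ D := fun v => by rw [hdeg]; exact hD v
    have hpart : ∃ c g, Part G T p (D + 2 * p - 1) c g := by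
      by_cases hsp : s < p
      · exact part_of_lt G T D p s hD' hDeg hsp
      · rcases hcase with h | ⟨h, h'⟩
        · exact absurd h hsp
        · refine part_of_le G T D p s hp (by omega) hD' (fun v hv => ?_) hDeg h h'
          rw [hdeg] at hv
          exact (hTm v).2 hv
    obtain ⟨c, g, hg⟩ := hpart
    obtain ⟨c', hc'⟩ := finish G T p (D + 2 * p - 1) hp (fun v hv => by
      rw [hdeg]
      rw [hTm] at hv
      unfold Large at hv
      omega) hg univ
    refine ⟨c', g, fun v => hc'.cle v (mem_union_right _ (mem_univ _)), hc'.gle,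
      fun u v huv => hc'.adj u (mem_union_right _ (mem_univ _)) v
        (mem_union_right _ (mem_univ _)) huv, hc'.edg, fun u v huv => ?_⟩
    have h3 := hc'.inc u (mem_union_right _ (mem_univ _)) v huv
    rw [le_abs]
    omega
  have h21 : ∀ p s : ℕ, 1 ≤ p → 21 * s ≤ D →
      (s < p ∨ (15 * s + 6 ≤ D + 2 * p ∧ 14 * p + 7 * s ≤ D + 10)) := by
    intro p s hp hs
    by_cases h : s < p
    · exact Or.inl h
    · exact Or.inr ⟨by omega, by omega⟩
  refine ⟨h1, fun s hs hsD p hp => h1 p s hp (fun X hX => ?_) (h21 p s hp hsD),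
    fun p s hp hs hsD => h1 p s hp (fun X hX => ?_) (h21 p s hp hsD)⟩
  · obtain ⟨v, hv, hc⟩ := hs X hX
    refine ⟨v, hv, (Set.ncard_le_ncard (fun u hu => ?_) (Set.toFinite _)).trans hc⟩
    exact ⟨hu.1, hu.2.1⟩
  · by_cases hall : ∀ v ∈ X, Large G D p v
    · obtain ⟨v, hv⟩ := hX
      refine ⟨v, hv, (Set.ncard_le_ncard (fun u hu => ?_) (Set.toFinite _)).trans hs⟩
      exact hall u hu.1
    · push Not at hall
      obtain ⟨v, hv, hvl⟩ := hall
      refine ⟨v, hv, (Set.ncard_le_ncard (fun u hu => ?_) (Set.toFinite _)).trans hs⟩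
      exact hu.2.2.resolve_left hvl

end Pool.Agent.Results.MP_b8729f_co.DegenerateLinear
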