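import Pool.Agent.N411.HYO.Graph

set_option autoImplicit false

/-!
# The Havet–Yu conjecture for line graphs

`H.lineGraph` is the line graph of `H` (Mathlib): its vertices are the edges of `H`, two different
edges with a common end are adjacent.

Proof.  Let `m = 2 h + 1` be odd and let `G` have a proper colouring with `m` colours (types) such that
every vertex has at most two neighbours of every type.  The starting result `BalancedPartitions`
treats even numbers of types; then the two copies of the complete graph on the types can be coloured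
independently, and the second copy needs `m - 1` labels.  For odd `m` this copy would need `m` labels,
one too many.  Here `h` edges of the second copy are moved to labels of the first copy: in the first
copy the type `i` has the label `i` and the edge `i j` the label `i + j + p` modulo `m + 2 p - 1`, so
that the label `2 i + p` is not used at `i` and at `i + h + p`, and if the circle of the labels is cut
inside the block of the labels of the types then the labels next to the cut can also be used at types
on the other side of the cut.  The `h` moved edges form a matching or (`p` even, `p ≤ h`) a matching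
and a path with two edges; the second copy without them is coloured with `m - 1` labels by a cyclic
near-1-factorization and one exchange.  The edges between two types form a bipartite graph of maximum
degree two, which gets the two labels of the pair of types (König).
-/

namespace Pool.Agent.Results.MP_b8729f_co.LineGraphs

open Pool.Agent.N411.HYO

/-- `TotalLabeling G p l`: the graph `G` has a `(p,1)`-total labeling of span `l`, that is, labels
`0, …, l` for the vertices (`fV`) and the edges (`fE`) such that adjacent vertices get different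
labels, edges sharing an endpoint get different labels, and the labels of a vertex and of an
incident edge differ by at least `p`. -/
def TotalLabeling {V : Type} (G : SimpleGraph V) (p l : ℕ) : Prop :=
  ∃ (fV : V → ℕ) (fE : Sym2 V → ℕ),
    (∀ v, fV v ≤ l) ∧ (∀ e ∈ G.edgeSet, fE e ≤ l) ∧
    (∀ u v, G.Adj u v → fV u ≠ fV v) ∧
    (∀ u v w, G.Adj u v → G.Adj u w → v ≠ w → fE s(u, v) ≠ fE s(u, w)) ∧
    (∀ u v, G.Adj u v → (p : ℤ) ≤ |(fV u : ℤ) - (fE s(u, v) : ℤ)|)

/-- `Δ` is the maximum degree of `G`. -/
def MaxDegree {V : Type} (G : SimpleGraph V) (Δ : ℕ) : Prop :=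
  (∀ v, (G.neighborSet v).ncard ≤ Δ) ∧ ∃ v, (G.neighborSet v).ncard = Δ

/-- `c` is a proper edge colouring of `H` with the colours `0, …, D - 1`. -/
def EdgeColouring {V : Type} (H : SimpleGraph V) (D : ℕ) (c : Sym2 V → ℕ) : Prop :=
  (∀ e ∈ H.edgeSet, c e < D) ∧
    ∀ x y z, H.Adj x y → H.Adj x z → y ≠ z → c s(x, y) ≠ c s(x, z)

/-- The prism over `H`, the Cartesian product of `H` and `K₂`. -/
def prism {V : Type} (H : SimpleGraph V) : SimpleGraph (V × Bool) :=
  H.boxProd (⊤ : SimpleGraph Bool)

theorem lab_total {V : Type} {G : SimpleGraph V} {p N : ℕ} (h : Lab G p N) :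
    TotalLabeling G p (N - 1) := by
  obtain ⟨fV, fE, h1, h2, h3, h4, h5⟩ := h
  exact ⟨fV, fE, fun v => Nat.le_sub_one_of_lt (h1 v), fun e he => Nat.le_sub_one_of_lt (h2 e he),
    h3, h4, h5⟩

/-- **The Havet–Yu conjecture for line graphs.**

(1) Let `m` be odd and let `G` be a finite graph with a proper vertex colouring `t` with `m` colours
such that every vertex has at most two neighbours of every colour.  Then `G` has, for every `p ≥ 1`,
a `(p,1)`-total labelling of span `2 (m - 1) + 2 p - 1`.

(2) If the finite graph `H` has a proper edge colouring with `D ≥ 1` colours then, for every `p ≥ 1`,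
its line graph has a `(p,1)`-total labelling of span `2 (D - 1) + 2 p - 1`.

(3) If moreover `D` is the maximum degree of `H` and `H` has two adjacent vertices of degree `D` (for
example if `H` is regular) then `Δ = 2 (D - 1)` is the maximum degree of the line graph, so this is
the Havet–Yu conjecture `λ ≤ Δ + 2 p - 1` for the line graph of `H`.

(4) For every finite graph `H`, with maximum degree `D`, the line graph of the prism over `H` has
maximum degree `Δ = 2 D` and, for every `p ≥ 1`, a `(p,1)`-total labelling of span
`2 D + 2 p - 1 = Δ + 2 p - 1`. -/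
theorem result :
    (∀ (V : Type) [Fintype V] (G : SimpleGraph V) (m p : ℕ) (t : V → ℕ), Odd m → 1 ≤ p →
      (∀ v, t v < m) → (∀ u v, G.Adj u v → t u ≠ t v) →
      (∀ v y, {u | G.Adj v u ∧ t u = y}.ncard ≤ 2) →
      TotalLabeling G p (2 * (m - 1) + 2 * p - 1)) ∧
    (∀ (V : Type) [Fintype V] (H : SimpleGraph V) (D p : ℕ) (c : Sym2 V → ℕ), 1 ≤ D → 1 ≤ p →
      EdgeColouring H D c → TotalLabeling H.lineGraph p (2 * (D - 1) + 2 * p - 1)) ∧
    (∀ (V : Type) [Fintype V] (H : SimpleGraph V) (D p : ℕ) (c : Sym2 V → ℕ), 1 ≤ p →
      EdgeColouring H D c → (∀ v, (H.neighborSet v).ncard ≤ D) →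
      (∃ x y, H.Adj x y ∧ (H.neighborSet x).ncard = D ∧ (H.neighborSet y).ncard = D) →
      ∃ Δ, MaxDegree H.lineGraph Δ ∧ Δ = 2 * (D - 1) ∧
        TotalLabeling H.lineGraph p (Δ + 2 * p - 1)) ∧
    (∀ (V : Type) [Fintype V] (H : SimpleGraph V) (D p : ℕ), 1 ≤ p → MaxDegree H D →
      ∃ Δ, MaxDegree (prism H).lineGraph Δ ∧ Δ = 2 * D ∧
        TotalLabeling (prism H).lineGraph p (Δ + 2 * p - 1)) := by
  refine ⟨?_, ?_, ?_, ?_⟩
  · intro V _ G m p t hm hp ht hR hw
    obtain ⟨h, hh⟩ := hm
    have h1 := lab_total (odd_types G h p hp t (fun v => by have := ht v; omega) hR hw)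
    have e1 : 4 * h + 2 * p - 1 = 2 * (m - 1) + 2 * p - 1 := by omega
    rwa [e1] at h1
  · intro V _ H D p c hD hp hc
    exact lab_total (line_lab H D p hD hp c hc.1 hc.2)
  · intro V _ H D p c hp hc hdeg ⟨x, y, hxy, hx, hy⟩
    have hD : 1 ≤ D := by
      rw [← hx, Nat.one_le_iff_ne_zero, ← Nat.pos_iff_ne_zero, Set.ncard_pos (Set.toFinite _)]
      exact ⟨y, hxy⟩
    exact ⟨2 * (D - 1), line_maxdeg H D hdeg hxy hx hy, rfl,
      lab_total (line_lab H D p hD hp c hc.1 hc.2)⟩
  · intro V _ H D p hp hdeg
    obtain ⟨hdeg, x, hx⟩ := hdeg
    obtain ⟨c, hc1, hc2⟩ := prism_cols H D hdeg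
    have h1 := line_maxdeg (prism H) (D + 1) (fun v => by
      obtain ⟨v, i⟩ := v
      have h2 : ((prism H).neighborSet (v, i)).ncard = _ := prism_degree H v i
      rw [h2]
      have := hdeg v
      omega) (x := (x, false)) (y := (x, true)) (by
        unfold prism
        rw [SimpleGraph.boxProd_adj, SimpleGraph.top_adj]
        exact Or.inr ⟨by simp, rfl⟩) (by
        have h2 : ((prism H).neighborSet (x, false)).ncard = _ := prism_degree H x false
        rw [h2, hx]) (by
        have h2 : ((prism H).neighborSet (x, true)).ncard = _ := prism_degree H x true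
        rw [h2, hx])
    have h3 := lab_total (line_lab (prism H) (D + 1) p (by omega) hp c hc1 hc2)
    exact ⟨2 * (D + 1 - 1), h1, by omega, h3⟩

end Pool.Agent.Results.MP_b8729f_co.LineGraphs
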