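import Pool.Agent.N347.TC.TwinMain

set_option autoImplicit false

/-!
# The Havet–Yu conjecture for graphs with even twin classes and for blow-ups

The vertices of a twin class get the same label, so every edge has a list of at least `D` allowed
labels which depends only on the classes of its ends.  The edges are labelled from these lists: the
weighted quotient is oriented such that no vertex of a class of `n` vertices has to take more than
`D s` outgoing and `D (n - s)` incoming edges, the bipartite double cover of the orientation is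
coloured from the lists (Galvin), and the colouring of the amalgamated multigraph is split.
-/

namespace Pool.Agent.Results.MP_b8729f_co.TwinClasses

/-- `TotalLabeling G p l`: the graph `G` has a `(p,1)`-total labeling of span `l`, that is, labels
`0, …, l` for the vertices (`fV`) and the edges (`fE`) such that adjacent vertices get different
labels, edges sharing an endpoint get different labels, and the labels of a vertex and of an
incident edge differ by at least `p`. -/
def TotalLabeling {V : Type} (G : SimpleGraph V) (p l : ℕ) : Prop :=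
  ∃ (fV : V → ℕ) (fE : Sym2 V → ℕ),
    (∀ v, fV v ≤ l) ∧ (∀ e ∈ G.edgeSet, fE e ≤ l) ∧
    (∀ u v, G.Adj u v → fV u ≠ fV v) ∧
    (∀ u v w, G.Adj u v → G.Adj u w → v ≠ w → fE s(u, v) ≠ fE s(u, w)) ∧
    (∀ u v, G.Adj u v → (p : ℤ) ≤ |(fV u : ℤ) - (fE s(u, v) : ℤ)|)

/-- The class of twins of `x`: the vertices with the same neighbours as `x` (so `x` is one). -/
def Twins {V : Type} (G : SimpleGraph V) (x : V) : Set V := {y | ∀ z, G.Adj x z ↔ G.Adj y z}

theorem of_lt {V : Type} {G : SimpleGraph V} {p D : ℕ} (hp : 1 ≤ p)
    (h : ∃ (fV : V → ℕ) (fE : Sym2 V → ℕ),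
      (∀ v, fV v < D + 2 * (2 * p - 1)) ∧ (∀ e ∈ G.edgeSet, fE e < D + 2 * (2 * p - 1)) ∧
      (∀ u v, G.Adj u v → fV u ≠ fV v) ∧
      (∀ u v w, G.Adj u v → G.Adj u w → v ≠ w → fE s(u, v) ≠ fE s(u, w)) ∧
      (∀ u v, G.Adj u v → (p : ℤ) ≤ |(fV u : ℤ) - (fE s(u, v) : ℤ)|)) :
    TotalLabeling G p (D + 4 * p - 3) := by
  obtain ⟨fV, fE, h1, h2, h3, h4, h5⟩ := h
  refine ⟨fV, fE, fun v => ?_, fun e he => ?_, h3, h4, h5⟩
  · have := h1 v
    omega
  · have := h2 e he
    omega

/-- **Graphs with even twin classes and blow-ups.**  Let `p ≥ 1`.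

(1) Let `G` be a finite graph with all degrees at most `D`, and suppose that for every vertex `x` the
number `n` of the twins of `x` is even or `deg x ≤ (1 - 1 / n) D`.  Then `G` has a `(p,1)`-total
labeling of span `D + 4 p - 3`.

(2) Let `H` be a finite graph with all degrees at most `d`, let `m > d`, and let `G` be a finite graph
with a map to `H` which sends edges to edges and has at most `m` vertices in every fibre.  Then `G`
has a `(p,1)`-total labeling of span `d m + 4 p - 2`, and even of span `d m + 4 p - 3` unless `m` is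
odd and `H` has a `d`-regular component with an odd number of vertices.

For `p = 1` the span `D + 4 p - 3` is `D + 2 p - 1`. -/
theorem result (p : ℕ) (hp : 1 ≤ p) :
    (∀ (W : Type) [Finite W] (G : SimpleGraph W) (D : ℕ),
      (∀ x, (G.neighborSet x).ncard ≤ D) →
      (∀ x, Even (Twins G x).ncard ∨
        (G.neighborSet x).ncard * (Twins G x).ncard + D ≤ D * (Twins G x).ncard) →
      TotalLabeling G p (D + 4 * p - 3)) ∧
    (∀ (V W : Type) [Finite V] [Finite W] (H : SimpleGraph V) (G : SimpleGraph W) (d m : ℕ)
      (f : W → V), (∀ v, (H.neighborSet v).ncard ≤ d) → d < m →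
      (∀ x y, G.Adj x y → H.Adj (f x) (f y)) → (∀ v, (f ⁻¹' {v}).ncard ≤ m) →
      TotalLabeling G p (d * m + 4 * p - 2) ∧
        (¬ (Odd m ∧ ∃ C : H.ConnectedComponent, Odd C.supp.ncard ∧
          ∀ v ∈ C.supp, (H.neighborSet v).ncard = d) →
          TotalLabeling G p (d * m + 4 * p - 3))) := by
  refine ⟨?_, ?_⟩
  · intro W _ G D hD hcl
    exact of_lt hp (Pool.Agent.N347.TC.twin_total G D p hp hD hcl)
  · intro V W _ _ H G d m f hd hm hfG hf
    refine ⟨?_, fun hne => ?_⟩
    · have h := of_lt hp (Pool.Agent.N347.TC.total H G d m (d * m + 1) p hp hd (by omega)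
        (Or.inr hm) (fun _ _ _ _ => le_rfl) f hfG hf)
      have h2 : d * m + 1 + 4 * p - 3 = d * m + 4 * p - 2 := by omega
      rwa [h2] at h
    · exact of_lt hp (Pool.Agent.N347.TC.total H G d m (d * m) p hp hd le_rfl (Or.inr hm)
        (fun ho C hC hr => absurd ⟨ho, C, hC, hr⟩ hne) f hfG hf)

end Pool.Agent.Results.MP_b8729f_co.TwinClasses
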